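import Pool.Agent.TH583.HB.Final
import Pool.Agent.TH100.LV.Final
import Pool.Agent.R145.Cir.Ham2

/-!
# Bonds with long odd cycles on both sides (bricks)
-/

set_option autoImplicit false
set_option linter.unusedSectionVars false

namespace Run7.h818.HB

open Finset H76FC H76TX H76TY Pool.Agent.W315.LB Pool.Agent.TH583.HB SimpleGraph

/-- `A` is an odd set of vertices with an odd complement, `A` and its complement are connected and
both contain an odd cycle of length at least five. -/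
structure Bond {W : Type} [Fintype W] (H : SimpleGraph W) (A : Finset W) : Prop where
  odd : Odd A.card
  odd' : Odd (Fintype.card W - A.card)
  conn : (H.induce (A : Set W)).Connected
  conn' : (H.induce ((A : Set W)ᶜ)).Connected
  cyc : OddCyc H A
  cyc' : ∃ (v : W) (c : H.Walk v v), c.IsCycle ∧ Odd c.length ∧ 5 ≤ c.length ∧
    ∀ x ∈ c.support, x ∉ A

open Classical in
/-- The averaging condition for bonds. -/
def FewBonds (W : Type) [Fintype W] (H : SimpleGraph W) : Prop :=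
  ∃ k : Finset W → ℕ, (∀ M, PM H M → ∀ A, Bond H A → cross M A ≤ 2 * k A + 3) ∧
    ∑ A : Finset W, (if Bond H A then ((k A : ℝ) / (k A + 1)) else 0) < 6

variable {V : Type} [Fintype V] [DecidableEq V]

theorem conn_of_brick {H : SimpleGraph V} (hB : Brick H) (h4 : 4 ≤ Fintype.card V) :
    H.Connected := by
  have hne : Nonempty V := Fintype.card_pos_iff.1 (by omega)
  refine (SimpleGraph.connected_iff _).2 ⟨?_, hne⟩
  intro x y
  have h1 : ({x, y} : Finset V).card ≤ 2 := Finset.card_le_two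
  have h2 := Finset.card_sdiff_add_card_eq_card (Finset.subset_univ ({x, y} : Finset V))
  rw [Finset.card_univ] at h2
  have h3 : 1 < (univ \ {x, y} : Finset V).card := by omega
  obtain ⟨u, hu, v, hv, huv⟩ := Finset.one_lt_card.1 h3
  simp only [Finset.mem_sdiff, Finset.mem_univ, true_and, Finset.mem_insert,
    Finset.mem_singleton, not_or] at hu hv
  have hc := (hB u v huv).1
  have hx : x ∈ {x | x ≠ u ∧ x ≠ v} := ⟨fun e => hu.1 e.symm, fun e => hv.1 e.symm⟩
  have hy : y ∈ {x | x ≠ u ∧ x ≠ v} := ⟨fun e => hu.2 e.symm, fun e => hv.2 e.symm⟩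
  have hr := hc.preconnected ⟨x, hx⟩ ⟨y, hy⟩
  exact hr.map (SimpleGraph.Embedding.induce _).toHom

theorem cut_compl {p : V → V → ℕ} (hs : ∀ u v, p u v = p v u) (X : Finset V) :
    H76FC.cut p Xᶜ = H76FC.cut p X := by
  rw [cut_E, cut_E, compl_compl]
  exact E_symm hs _ _

theorem cut_split {p : V → V → ℕ} (hs : ∀ u v, p u v = p v u) {Y Z Z' : Finset V}
    (hU : Z ∪ Z' = Y) (hd : Disjoint Z Z') (h0 : ∀ u ∈ Z, ∀ v ∈ Z', p u v = 0) :
    H76FC.cut p Z + H76FC.cut p Z' = H76FC.cut p Y := by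
  have e0 : E p Z Z' = 0 := E_zero h0
  have e0' : E p Z' Z = 0 := by rw [E_symm hs]; exact e0
  have c1 : Zᶜ = Yᶜ ∪ Z' := by
    ext x
    have hx : x ∈ Z → x ∉ Z' := fun h => Finset.disjoint_left.1 hd h
    rw [← hU]
    simp only [Finset.mem_compl, Finset.mem_union]
    tauto
  have c2 : Z'ᶜ = Yᶜ ∪ Z := by
    ext x
    have hx : x ∈ Z → x ∉ Z' := fun h => Finset.disjoint_left.1 hd h
    rw [← hU]
    simp only [Finset.mem_compl, Finset.mem_union]
    tauto
  have d1 : Disjoint Yᶜ Z' := by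
    rw [Finset.disjoint_left]
    intro x hx hx'
    exact (Finset.mem_compl.1 hx) (by rw [← hU]; exact Finset.mem_union_right _ hx')
  have d2 : Disjoint Yᶜ Z := by
    rw [Finset.disjoint_left]
    intro x hx hx'
    exact (Finset.mem_compl.1 hx) (by rw [← hU]; exact Finset.mem_union_left _ hx')
  rw [cut_E p Z, cut_E p Z', cut_E p Y, c1, c2, E_union_right p Z d1, E_union_right p Z' d2, e0, e0',
    ← hU, E_union_left p _ hd]
  omega

theorem cut_pos {p : V → V → ℕ} (hs : ∀ u v, p u v = p v u) (hc : (gr p).Connected)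
    {Z : Finset V} (hZ : Z.Nonempty) {b : V} (hb : b ∉ Z) : 0 < H76FC.cut p Z := by
  obtain ⟨a, ha⟩ := hZ
  obtain ⟨w⟩ := hc.preconnected a b
  obtain ⟨u, v, huv, hu, hv⟩ := Pool.Agent.R145.Cir.step_of_reach (p := fun x => x ∈ Z) w ha hb
  have hp : 0 < p u v := by
    unfold gr at huv
    rw [SimpleGraph.fromRel_adj] at huv
    rcases huv.2 with h | h
    · exact h
    · rw [hs]; exact h
  unfold H76FC.cut
  calc 0 < p u v := hp
    _ ≤ ∑ w ∈ Zᶜ, p u w := Finset.single_le_sum (f := fun w => p u w) (fun _ _ => Nat.zero_le _)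
        (Finset.mem_compl.2 hv)
    _ ≤ _ := Finset.single_le_sum (f := fun u => ∑ w ∈ Zᶜ, p u w) (fun _ _ => Nat.zero_le _) hu

/-- A violated set with the least cut is connected. -/
theorem side_conn {p q : V → V → ℕ} (hs : ∀ u v, p u v = p v u) (hqs : ∀ u v, q u v = q v u)
    (hqp : ∀ u v, q u v ≤ p u v) (hc : (gr p).Connected) {s : ℕ} {Y : Finset V}
    (hodd : Odd Y.card) (hlt : H76FC.cut q Y < s)
    (hmin : ∀ Z : Finset V, Odd Z.card → H76FC.cut q Z < s → H76FC.cut p Y ≤ H76FC.cut p Z) :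
    ((gr p).induce (Y : Set V)).Connected := by
  classical
  have hne : Y.Nonempty := by
    rw [← Finset.card_pos]
    exact hodd.pos
  have key : ∀ Z Z' : Finset V, Z ∪ Z' = Y → Disjoint Z Z' → (∀ u ∈ Z, ∀ v ∈ Z', p u v = 0) →
      Odd Z.card → Z'.Nonempty → False := by
    intro Z Z' hU hd h0 hZ hZ'
    have h1 := cut_split hs hU hd h0
    have h2 := cut_split hqs hU hd (fun u hu v hv => by
      have := hqp u v
      rw [h0 u hu v hv] at this
      omega)
    obtain ⟨z, hz⟩ : Z.Nonempty := by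
      rw [← Finset.card_pos]
      exact hZ.pos
    have h3 := cut_pos hs hc hZ' (Finset.disjoint_left.1 hd hz)
    have h4 := hmin Z hZ (by omega)
    omega
  by_contra hcon
  have hnp : ¬ ((gr p).induce (Y : Set V)).Preconnected := by
    intro h
    obtain ⟨a, ha⟩ := hne
    exact hcon ((SimpleGraph.connected_iff _).2 ⟨h, ⟨⟨a, ha⟩⟩⟩)
  unfold SimpleGraph.Preconnected at hnp
  push Not at hnp
  obtain ⟨⟨a, ha⟩, ⟨b, hb⟩, hab⟩ := hnp
  set Y1 := Y.filter (fun x => ∃ hx : x ∈ (Y : Set V),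
    ((gr p).induce (Y : Set V)).Reachable ⟨a, ha⟩ ⟨x, hx⟩) with hY1
  set Y2 := Y.filter (fun x => ¬ ∃ hx : x ∈ (Y : Set V),
    ((gr p).induce (Y : Set V)).Reachable ⟨a, ha⟩ ⟨x, hx⟩) with hY2
  have hU : Y1 ∪ Y2 = Y := Finset.filter_union_filter_not_eq _ _
  have hd : Disjoint Y1 Y2 := Finset.disjoint_filter_filter_not _ _ _
  have h0 : ∀ u ∈ Y1, ∀ v ∈ Y2, p u v = 0 := by
    intro u hu v hv
    by_contra hne'
    obtain ⟨hu1, hu2, hu3⟩ := Finset.mem_filter.1 hu
    obtain ⟨hv1, hv2⟩ := Finset.mem_filter.1 hv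
    apply hv2
    refine ⟨hv1, hu3.trans (SimpleGraph.Adj.reachable ?_)⟩
    have huv : u ≠ v := by
      rintro rfl
      exact Finset.disjoint_left.1 hd hu hv
    exact Y13.adj_gr p u v huv (Nat.pos_of_ne_zero hne')
  have ha1 : a ∈ Y1 := Finset.mem_filter.2 ⟨ha, ha, SimpleGraph.Reachable.refl _⟩
  have hb2 : b ∈ Y2 := Finset.mem_filter.2 ⟨hb, fun ⟨_, h⟩ => hab h⟩
  have hcard : Y1.card + Y2.card = Y.card := by
    rw [← Finset.card_union_of_disjoint hd, hU]
  rcases Nat.even_or_odd Y1.card with h1 | h1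
  · have h2 : Odd Y2.card := by
      rw [← hcard] at hodd
      exact (Nat.odd_add'.1 hodd).2 h1
    refine key Y2 Y1 (by rw [Finset.union_comm]; exact hU) hd.symm ?_ h2 ⟨a, ha1⟩
    intro u hu v hv
    rw [hs]
    exact h0 v hv u hu
  · exact key Y1 Y2 hU hd h0 h1 ⟨b, hb2⟩

/-- A violated set contains a minimal violated set. -/
theorem exists_minV {s : ℕ} {q : V → V → ℕ} (h1 : ∀ v, q v v = 0) (h2 : ∀ u v, q u v = q v u)
    (h3 : ∀ v, ∑ w, q v w = s) : ∀ (n : ℕ) (Y : Finset V), Y.card = n → Odd Y.card →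
      H76FC.cut q Y < s → ∃ Z ⊆ Y, MinV s q Z := by
  intro n
  induction n using Nat.strong_induction_on with
  | _ n ih =>
    intro Y hn hodd hlt
    by_cases h : ∀ Z ⊂ Y, Odd Z.card → s ≤ H76FC.cut q Z
    · exact ⟨Y, Finset.Subset.refl _, ⟨h1, h2, h3, hodd, hlt, h⟩⟩
    · push Not at h
      obtain ⟨Z, hZ, hZo, hZlt⟩ := h
      obtain ⟨U, hU, hm⟩ := ih Z.card (by rw [← hn]; exact Finset.card_lt_card hZ) Z rfl hZo hZlt
      exact ⟨U, hU.trans hZ.1, hm⟩

theorem viol {r : ℕ} {p : V → V → ℕ} {M : V → V} (hR : RGraph r p) (hN : NoTight r p)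
    (hM : PMof p M) {Y : Finset V} (hodd : Odd Y.card) (hlt : H76FC.cut (minus p M) Y < r - 1) :
    H76FC.cut p Y - r + 3 ≤ out M Y ∧ 5 ≤ out M Y ∧ 5 ≤ Y.card ∧ 5 ≤ Yᶜ.card := by
  have h1 := cut_add hM Y
  have h3 := hR.odd Y hodd
  obtain ⟨a, ha⟩ := cut_parity hR hodd
  obtain ⟨b, hb⟩ := out_parity hM.1 Y
  obtain ⟨c, hc⟩ := hodd
  have h4 : H76FC.cut p Y - r + 3 ≤ out M Y := by omega
  have hle : out M Y ≤ Y.card := Finset.card_filter_le _ _
  have hle' : out M Y ≤ Yᶜ.card := by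
    apply Finset.card_le_card_of_injOn M
    · intro v hv
      have := (Finset.mem_filter.1 hv).2
      exact Finset.mem_coe.2 (Finset.mem_compl.2 this)
    · intro u _ v _ huv
      have := congrArg M huv
      rwa [hM.1.1, hM.1.1] at this
  have htight : H76FC.cut p Y ≠ r := by
    intro h0
    rcases hN Y ⟨c, hc⟩ h0 with h1 | h1 <;> omega
  have h5 : 5 ≤ out M Y := by omega
  exact ⟨h4, h5, by omega, by omega⟩

theorem bond_of {r : ℕ} {p : V → V → ℕ} {M : V → V} (hr : 1 ≤ r) (hR : RGraph r p)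
    (hN : NoTight r p) (hB : Brick (gr p)) (hM : PMof p M) {S : Finset V}
    (hS : MinV (r - 1) (minus p M) S) :
    ∃ Y : Finset V, Bond (gr p) Y ∧ Bond (gr p) Yᶜ ∧ H76FC.cut p Y - r + 3 ≤ out M Y ∧
      5 ≤ out M Y ∧ out M Yᶜ = out M Y := by
  classical
  have hev : Even (Fintype.card V) := by
    by_contra hodd
    rw [Nat.not_even_iff_odd] at hodd
    have h1 := hR.odd univ (by rw [Finset.card_univ]; exact hodd)
    have h2 : H76FC.cut p univ = 0 := by simp [H76FC.cut]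
    omega
  have hsS := viol hR hN hM hS.odd hS.lt
  have hc : (gr p).Connected := by
    apply conn_of_brick hB
    have := Finset.card_le_univ S
    omega
  have hq : ∀ u v, 0 < minus p M u v → u ≠ v → (gr p).Adj u v := by
    intro u v h huv
    refine Y13.adj_gr p u v huv ?_
    unfold minus at h
    omega
  have hqp : ∀ u v, minus p M u v ≤ p u v := fun u v => Nat.sub_le _ _
  set F : Finset (Finset V) := univ.filter fun Y => Odd Y.card ∧ H76FC.cut (minus p M) Y < r - 1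
    with hF
  obtain ⟨Y, hY, hYmin⟩ := Finset.exists_min_image F (fun Y => H76FC.cut p Y)
    ⟨S, Finset.mem_filter.2 ⟨Finset.mem_univ _, hS.odd, hS.lt⟩⟩
  obtain ⟨_, hYo, hYl⟩ := Finset.mem_filter.1 hY
  have hmin : ∀ Z : Finset V, Odd Z.card → H76FC.cut (minus p M) Z < r - 1 →
      H76FC.cut p Y ≤ H76FC.cut p Z := fun Z h1 h2 =>
    hYmin Z (Finset.mem_filter.2 ⟨Finset.mem_univ _, h1, h2⟩)
  have hcc := Finset.card_add_card_compl Y
  have hYo' : Odd Yᶜ.card := by
    have h1 : Yᶜ.card = Fintype.card V - Y.card := by omega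
    rw [h1]
    obtain ⟨a, ha⟩ := hev
    obtain ⟨b, hb⟩ := hYo
    exact ⟨a - b - 1, by omega⟩
  have hYl' : H76FC.cut (minus p M) Yᶜ < r - 1 := by
    rw [cut_compl hS.symm]
    exact hYl
  have hmin' : ∀ Z : Finset V, Odd Z.card → H76FC.cut (minus p M) Z < r - 1 →
      H76FC.cut p Yᶜ ≤ H76FC.cut p Z := fun Z h1 h2 => by
    rw [cut_compl hR.symm]
    exact hmin Z h1 h2
  have c1 := side_conn hR.symm hS.symm hqp hc hYo hYl hmin
  have c2 := side_conn hR.symm hS.symm hqp hc hYo' hYl' hmin'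
  have hcyc : ∀ Z : Finset V, Odd Z.card → H76FC.cut (minus p M) Z < r - 1 →
      OddCyc (gr p) Z := by
    intro Z h1 h2
    obtain ⟨U, hU, hm⟩ := exists_minV hS.loopless hS.symm hS.reg _ Z rfl h1 h2
    obtain ⟨v, c, d1, d2, d3, d4⟩ := (hm.heavy (viol hR hN hM hm.odd hm.lt).2.2.1 hq).cyc
    exact ⟨v, c, d1, d2, d3, fun x hx => hU (d4 x hx)⟩
  have k1 := hcyc Y hYo hYl
  have k2 := hcyc Yᶜ hYo' hYl'
  have hv := viol hR hN hM hYo hYl
  refine ⟨Y, ⟨hYo, ?_, c1, ?_, k1, ?_⟩, ⟨hYo', ?_, c2, ?_, k2, ?_⟩, hv.1, hv.2.1, ?_⟩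
  · have h1 : Fintype.card V - Y.card = Yᶜ.card := by omega
    rw [h1]
    exact hYo'
  · rw [← Finset.coe_compl]
    exact c2
  · obtain ⟨v, c, d1, d2, d3, d4⟩ := k2
    exact ⟨v, c, d1, d2, d3, fun x hx => Finset.mem_compl.1 (d4 x hx)⟩
  · have h1 : Fintype.card V - Yᶜ.card = Y.card := by omega
    rw [h1]
    exact hYo
  · rw [Finset.coe_compl, compl_compl]
    exact c1
  · obtain ⟨v, c, d1, d2, d3, d4⟩ := k1
    exact ⟨v, c, d1, d2, d3, fun x hx hx' => Finset.mem_compl.1 hx' (d4 x hx)⟩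
  · have e1 := cut_add hM Y
    have e2 := cut_add hM Yᶜ
    rw [cut_compl hS.symm, cut_compl hR.symm] at e2
    omega

/-- **Main step.** -/
theorem stepB {r : ℕ} {p : V → V → ℕ} (hr : 1 ≤ r) (hR : RGraph r p) (hN : NoTight r p)
    (hB : Brick (gr p)) (hF : FewBonds V (gr p)) :
    ∃ M, PMof p M ∧ RGraph (r - 1) (minus p M) := by
  classical
  rcases Nat.lt_or_ge r 3 with hr3 | hr3
  · -- `r ≤ 2`
    obtain ⟨M, hM, _⟩ := exists_avg hR hr ∅ (fun _ => 0) (by simp)
    refine ⟨M, hM, ?_⟩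
    rcases remove_or hr hR hM with h | ⟨S, T, _, hS, _⟩
    · exact h
    · exfalso
      have h1 := cut_add hM S
      have h2 := hS.lt
      obtain ⟨a, ha⟩ := cut_parity hR hS.odd
      obtain ⟨b, hb⟩ := out_parity hM.1 S
      obtain ⟨c, hc⟩ := hS.odd
      have h0 : H76FC.cut (minus p M) S = 0 := by omega
      rw [h0] at h1
      omega
  obtain ⟨k, hk, hsum⟩ := hF
  set D : Finset V → ℕ := fun A => H76FC.cut p A - r with hD
  set F : Finset (Finset V) := univ.filter fun A => Bond (gr p) A ∧ D A ≤ 2 * k A with hFdef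
  set α : Finset V → ℝ := fun A => 1 / (2 * (D A + 2)) with hα
  have hα0 : ∀ A, 0 ≤ α A := fun A => by
    rw [hα]; positivity
  have hr0 : (0 : ℝ) < r := by
    have : 0 < r := by omega
    exact_mod_cast this
  obtain ⟨M, hM, hcost⟩ := exists_avg hR hr F α (fun A _ => hα0 A)
  refine ⟨M, hM, ?_⟩
  rcases remove_or hr hR hM with h | ⟨S, T, _, hS, _⟩
  · exact h
  exfalso
  obtain ⟨Y, hY, hY', hY1, hY2, hY3⟩ := bond_of hr hR hN hB hM hS
  have hne : ∀ u v, 0 < p u v → u ≠ v := by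
    rintro u v huv rfl
    rw [hR.loopless] at huv
    exact lt_irrefl 0 huv
  have hPM : PM (gr p) M :=
    ⟨hM.1.1, fun v => Y13.adj_gr p v (M v) (hne _ _ (hM.2 v)) (hM.2 v)⟩
  have hYF : Y ∈ F := by
    rw [hFdef, Finset.mem_filter]
    refine ⟨Finset.mem_univ _, hY, ?_⟩
    have := hk M hPM Y hY
    rw [cross_out] at this
    show H76FC.cut p Y - r ≤ _
    omega
  have hcutc : H76FC.cut p Yᶜ = H76FC.cut p Y := cut_compl hR.symm Y
  have hYF' : Yᶜ ∈ F := by
    rw [hFdef, Finset.mem_filter]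
    refine ⟨Finset.mem_univ _, hY', ?_⟩
    have := hk M hPM Yᶜ hY'
    rw [cross_out, hY3] at this
    show H76FC.cut p Yᶜ - r ≤ _
    rw [hcutc]
    omega
  have hYne : Y ≠ Yᶜ := by
    intro he
    obtain ⟨x, hx⟩ : Y.Nonempty := by
      rw [← Finset.card_pos]
      exact hY.odd.pos
    have : x ∈ Yᶜ := he ▸ hx
    exact Finset.mem_compl.1 this hx
  have hodd : ∀ U ∈ F, Odd U.card := fun U hU => (Finset.mem_filter.1 hU).2.1.odd
  have hout1 : ∀ U ∈ F, 1 ≤ out M U := by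
    intro U hU
    obtain ⟨b, hb⟩ := out_parity hM.1 U
    obtain ⟨c, hc⟩ := hodd U hU
    omega
  have hcutD : ∀ U ∈ F, (H76FC.cut p U : ℝ) = D U + r := by
    intro U hU
    have := hR.odd U (hodd U hU)
    have h2 : H76FC.cut p U = D U + r := by
      show H76FC.cut p U = (H76FC.cut p U - r) + r
      omega
    rw [h2]; push_cast; ring
  have h1 : ∑ U ∈ F, α U * ((out M U : ℝ) - 1) ≤ ∑ U ∈ F, α U * ((D U : ℝ) / r) := by
    have e1 : ∑ U ∈ F, α U * ((out M U : ℝ) - 1) = ∑ U ∈ F, α U * out M U - ∑ U ∈ F, α U := by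
      rw [← Finset.sum_sub_distrib]
      exact Finset.sum_congr rfl fun U _ => by ring
    have e2 : ∑ U ∈ F, α U * ((H76FC.cut p U : ℝ) / r) =
        ∑ U ∈ F, α U * ((D U : ℝ) / r) + ∑ U ∈ F, α U := by
      rw [← Finset.sum_add_distrib]
      refine Finset.sum_congr rfl fun U hU => ?_
      rw [hcutD U hU]
      field_simp
    rw [e2] at hcost
    rw [e1]
    linarith
  have h2 : ∑ U ∈ F, α U * ((D U : ℝ) / r) < 1 := by
    have e1 : ∑ U ∈ F, α U * ((D U : ℝ) / r) ≤
        (∑ U ∈ F, ((k U : ℝ) / (k U + 1))) / (2 * r) := by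
      rw [Finset.sum_div]
      refine Finset.sum_le_sum fun U hU => ?_
      have hDk : (D U : ℝ) ≤ 2 * k U := by exact_mod_cast (Finset.mem_filter.1 hU).2.2
      have hD0 : (0 : ℝ) ≤ D U := Nat.cast_nonneg _
      have hk0 : (0 : ℝ) ≤ k U := Nat.cast_nonneg _
      have h3 : (D U : ℝ) / (D U + 2) ≤ (k U : ℝ) / (k U + 1) := by
        rw [div_le_div_iff₀ (by positivity) (by positivity)]
        nlinarith
      have e3 : α U * ((D U : ℝ) / r) = ((D U : ℝ) / (D U + 2)) / (2 * r) := by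
        rw [hα]; field_simp
      rw [e3]
      exact div_le_div_of_nonneg_right h3 (by positivity)
    have e2 : ∑ U ∈ F, ((k U : ℝ) / (k U + 1)) < 6 := by
      refine lt_of_le_of_lt ?_ hsum
      rw [← Finset.sum_filter]
      refine Finset.sum_le_sum_of_subset_of_nonneg ?_ ?_
      · intro U hU
        rw [hFdef, Finset.mem_filter] at hU
        exact Finset.mem_filter.2 ⟨Finset.mem_univ _, hU.2.1⟩
      · intro U _ _
        positivity
    refine lt_of_le_of_lt e1 ?_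
    rw [div_lt_one (by positivity)]
    have : (3 : ℝ) ≤ r := by exact_mod_cast hr3
    linarith
  have h3 : 1 ≤ ∑ U ∈ F, α U * ((out M U : ℝ) - 1) := by
    have hpair : ({Y, Yᶜ} : Finset (Finset V)) ⊆ F := by
      intro U hU
      rw [Finset.mem_insert, Finset.mem_singleton] at hU
      rcases hU with rfl | rfl
      · exact hYF
      · exact hYF'
    have h4 : ∑ U ∈ ({Y, Yᶜ} : Finset (Finset V)), α U * ((out M U : ℝ) - 1) ≤
        ∑ U ∈ F, α U * ((out M U : ℝ) - 1) := by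
      refine Finset.sum_le_sum_of_subset_of_nonneg hpair fun U hU _ => ?_
      refine mul_nonneg (hα0 U) ?_
      have := hout1 U hU
      have : (1 : ℝ) ≤ out M U := by exact_mod_cast this
      linarith
    rw [Finset.sum_pair hYne] at h4
    have h5 : ∀ U, H76FC.cut p U - r + 3 ≤ out M U → 1 / 2 ≤ α U * ((out M U : ℝ) - 1) := by
      intro U hU
      have hU' : (D U : ℝ) + 3 ≤ out M U := by exact_mod_cast hU
      have hD0 : (0 : ℝ) ≤ D U := Nat.cast_nonneg _
      have e : (1 : ℝ) / 2 = α U * ((D U : ℝ) + 2) := by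
        rw [hα]; field_simp
      calc (1 : ℝ) / 2 = α U * ((D U : ℝ) + 2) := e
        _ ≤ α U * ((out M U : ℝ) - 1) := mul_le_mul_of_nonneg_left (by linarith) (hα0 U)
    have h6 := h5 Y hY1
    have h7 := h5 Yᶜ (by rw [hcutc, hY3]; exact hY1)
    linarith
  linarith

end Run7.h818.HB
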