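import Pool.Agent.Run7.h818.HB.RG

/-!
# Tight multigraphs without `P*` minor (`P*`: the Petersen graph minus a vertex)
-/

set_option autoImplicit false

namespace Run7.h818.HB

open Finset H76FC H76TX H76TY

/-- the multigraph `ends` with a new vertex, `Fin.last n`, and one new edge from it to `f i` for every
`i` -/
def plus {n m r : ℕ} (ends : Fin m → Sym2 (Fin n)) (f : Fin r → Fin n) :
    Fin (m + r) → Sym2 (Fin (n + 1)) :=
  Fin.addCases (fun e => (ends e).map Fin.castSucc) (fun i => s((f i).castSucc, Fin.last n))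

/-- `G` has the Petersen graph minus a vertex as a minor -/
def StarMinor {V : Type} (G : SimpleGraph V) : Prop :=
  ∃ B : {s : Finset (Fin 5) // s.card = 2 ∧ s ≠ {0, 1}} → Set V,
    (∀ i j, i ≠ j → Disjoint (B i) (B j)) ∧ (∀ i, (G.induce (B i)).Connected) ∧
    ∀ i j, Disjoint i.1 j.1 → ∃ a ∈ B i, ∃ b ∈ B j, G.Adj a b

theorem plus_left {n m r : ℕ} (ends : Fin m → Sym2 (Fin n)) (f : Fin r → Fin n) (e : Fin m) :
    plus ends f (Fin.castAdd r e) = (ends e).map Fin.castSucc := by
  unfold plus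
  rw [Fin.addCases_left]

theorem plus_right {n m r : ℕ} (ends : Fin m → Sym2 (Fin n)) (f : Fin r → Fin n) (i : Fin r) :
    plus ends f (Fin.natAdd m i) = s((f i).castSucc, Fin.last n) := by
  unfold plus
  rw [Fin.addCases_right]

theorem card_split {m r : ℕ} (P : Fin (m + r) → Prop) [DecidablePred P] :
    #{e | P e} = #{e | P (Fin.castAdd r e)} + #{i | P (Fin.natAdd m i)} := by
  rw [card_filter, card_filter, card_filter, Fin.sum_univ_add]

theorem mem_map_cs {n : ℕ} (e : Sym2 (Fin n)) (v : Fin n) :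
    v.castSucc ∈ e.map Fin.castSucc ↔ v ∈ e := by
  rw [Sym2.mem_map]
  constructor
  · rintro ⟨a, ha, h⟩
    rw [Fin.castSucc_inj] at h
    exact h ▸ ha
  · intro h
    exact ⟨v, h, rfl⟩

theorem last_not_mem {n : ℕ} (e : Sym2 (Fin n)) : Fin.last n ∉ e.map Fin.castSucc := by
  rw [Sym2.mem_map]
  rintro ⟨a, -, h⟩
  exact (Fin.castSucc_lt_last a).ne h

theorem handshake {N M : ℕ} (g : Fin M → Sym2 (Fin N)) (hg : ∀ e, ¬ (g e).IsDiag)
    (S : Finset (Fin N)) :
    ∑ v ∈ S, #{e | v ∈ g e} = 2 * #{e | ∀ v ∈ g e, v ∈ S} +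
      #{e | ∃ u, u ∈ S ∧ ∃ w, w ∉ S ∧ g e = s(u, w)} := by
  classical
  have h1 : ∑ v ∈ S, #{e | v ∈ g e} = ∑ e, ∑ v ∈ S, if v ∈ g e then 1 else 0 := by
    rw [sum_comm]
    exact sum_congr rfl fun v _ => by rw [card_filter]
  rw [h1, card_filter, card_filter, mul_sum, ← sum_add_distrib]
  refine sum_congr rfl fun e _ => ?_
  have hd := hg e
  induction hge : g e with
  | _ a b =>
    rw [hge, Sym2.mk_isDiag_iff] at hd
    simp only [Sym2.mem_iff, forall_eq_or_imp, forall_eq]
    have h2 : (∑ v ∈ S, if v = a ∨ v = b then 1 else 0) =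
        (if a ∈ S then 1 else 0) + (if b ∈ S then 1 else 0) := by
      have h3 : ∀ v : Fin N, (if v = a ∨ v = b then 1 else 0) =
          (if v = a then 1 else 0) + (if v = b then 1 else 0) := by
        intro v
        by_cases h : v = a
        · have h4 : v ≠ b := fun h5 => hd (h.symm.trans h5)
          rw [if_pos (Or.inl h), if_pos h, if_neg h4]
        · by_cases h4 : v = b
          · rw [if_pos (Or.inr h4), if_neg h, if_pos h4]
          · rw [if_neg (by tauto), if_neg h, if_neg h4]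
      rw [sum_congr rfl fun v _ => h3 v, sum_add_distrib, sum_ite_eq', sum_ite_eq']
    rw [h2]
    have h5 : (∃ u, u ∈ S ∧ ∃ w, w ∉ S ∧ (s(a, b) : Sym2 (Fin N)) = s(u, w)) ↔
        (a ∈ S ∧ b ∉ S) ∨ (b ∈ S ∧ a ∉ S) := by
      constructor
      · rintro ⟨u, hu, w, hw, h⟩
        rw [Sym2.eq_iff] at h
        rcases h with ⟨rfl, rfl⟩ | ⟨rfl, rfl⟩
        · exact Or.inl ⟨hu, hw⟩
        · exact Or.inr ⟨hu, hw⟩
      · rintro (⟨h, h'⟩ | ⟨h, h'⟩)
        · exact ⟨a, h, b, h', rfl⟩
        · exact ⟨b, h, a, h', Sym2.eq_swap⟩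
    simp only [h5]
    by_cases ha : a ∈ S <;> by_cases hb : b ∈ S <;> simp [ha, hb]

theorem plus_loopless {n m r : ℕ} (ends : Fin m → Sym2 (Fin n)) (f : Fin r → Fin n)
    (hl : ∀ e, ¬ (ends e).IsDiag) (e : Fin (m + r)) : ¬ (plus ends f e).IsDiag := by
  induction e using Fin.addCases with
  | left e =>
    rw [plus_left, Sym2.isDiag_map (Fin.castSucc_injective n)]
    exact hl e
  | right i =>
    rw [plus_right, Sym2.mk_isDiag_iff]
    exact (Fin.castSucc_lt_last _).ne

theorem plus_degree {n m r : ℕ} (ends : Fin m → Sym2 (Fin n)) (f : Fin r → Fin n)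
    (hf : ∀ v, #{e | v ∈ ends e} + #{i | f i = v} = r) (v : Fin (n + 1)) :
    #{e | v ∈ plus ends f e} = r := by
  classical
  rw [card_split]
  simp only [plus_left, plus_right]
  induction v using Fin.lastCases with
  | last =>
    have h1 : (univ.filter fun e : Fin m => Fin.last n ∈ (ends e).map Fin.castSucc) = ∅ := by
      rw [filter_eq_empty_iff]
      intro e _
      exact last_not_mem _
    have h2 : (univ.filter fun i : Fin r => Fin.last n ∈ (s((f i).castSucc, Fin.last n) :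
        Sym2 (Fin (n + 1)))) = univ := by
      rw [filter_eq_self]
      intro i _
      rw [Sym2.mem_iff]
      exact Or.inr rfl
    rw [h1, h2, card_empty, zero_add, card_univ, Fintype.card_fin]
  | cast v =>
    have h1 : (univ.filter fun e : Fin m => v.castSucc ∈ (ends e).map Fin.castSucc) =
        univ.filter fun e => v ∈ ends e := by
      ext e
      rw [mem_filter, mem_filter, mem_map_cs]
    have h2 : (univ.filter fun i : Fin r => v.castSucc ∈ (s((f i).castSucc, Fin.last n) :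
        Sym2 (Fin (n + 1)))) = univ.filter fun i => f i = v := by
      ext i
      rw [mem_filter, mem_filter, Sym2.mem_iff, Fin.castSucc_inj]
      constructor
      · rintro ⟨h, h3 | h3⟩
        · exact ⟨h, h3.symm⟩
        · exact absurd h3 (Fin.castSucc_lt_last v).ne
      · rintro ⟨h, h3⟩
        exact ⟨h, Or.inl h3.symm⟩
    rw [h1, h2]
    exact hf v

theorem plus_cut {n m r : ℕ} (ends : Fin m → Sym2 (Fin n)) (f : Fin r → Fin n)
    (hl : ∀ e, ¬ (ends e).IsDiag) (hf : ∀ v, #{e | v ∈ ends e} + #{i | f i = v} = r)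
    (hodd : ∀ S : Finset (Fin n), Odd S.card → 2 * #{e | ∀ v ∈ ends e, v ∈ S} ≤ r * (S.card - 1))
    (X : Finset (Fin (n + 1))) (hX : Odd X.card) (hlast : Fin.last n ∉ X) :
    r ≤ #{e | ∃ u, u ∈ X ∧ ∃ w, w ∉ X ∧ plus ends f e = s(u, w)} := by
  classical
  have h1 := handshake (plus ends f) (plus_loopless ends f hl) X
  rw [sum_congr rfl fun v _ => plus_degree ends f hf v, sum_const, smul_eq_mul] at h1
  obtain ⟨S, rfl⟩ : ∃ S : Finset (Fin n), X = S.map Fin.castSuccEmb := by
    refine ⟨univ.filter fun v => v.castSucc ∈ X, ?_⟩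
    ext v
    rw [mem_map]
    constructor
    · intro hv
      induction v using Fin.lastCases with
      | last => exact absurd hv hlast
      | cast v => exact ⟨v, mem_filter.2 ⟨mem_univ _, hv⟩, rfl⟩
    · rintro ⟨w, hw, rfl⟩
      exact (mem_filter.1 hw).2
  rw [card_map] at hX h1
  have h2 : #{e | ∀ v ∈ plus ends f e, v ∈ S.map Fin.castSuccEmb} = #{e | ∀ v ∈ ends e, v ∈ S} := by
    rw [card_split]
    simp only [plus_left, plus_right]
    have h3 : (univ.filter fun i : Fin r => ∀ v ∈ (s((f i).castSucc, Fin.last n) :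
        Sym2 (Fin (n + 1))), v ∈ S.map Fin.castSuccEmb) = ∅ := by
      rw [filter_eq_empty_iff]
      intro i _ h
      exact hlast (h _ (Sym2.mem_mk_right _ _))
    rw [h3, card_empty, add_zero]
    congr 1
    ext e
    rw [mem_filter, mem_filter]
    refine and_congr_right fun _ => ⟨fun h v hv => ?_, fun h v hv => ?_⟩
    · have h4 := h v.castSucc ((mem_map_cs _ _).2 hv)
      rw [mem_map] at h4
      obtain ⟨w, hw, h5⟩ := h4
      have h6 : w = v := Fin.castSucc_injective n h5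
      exact h6 ▸ hw
    · rw [Sym2.mem_map] at hv
      obtain ⟨a, ha, rfl⟩ := hv
      rw [mem_map]
      exact ⟨a, h a ha, rfl⟩
  have h7 := hodd S hX
  rw [h2] at h1
  have h8 : 1 ≤ S.card := hX.pos
  have h9 : S.card * r = r * (S.card - 1) + r := by
    obtain ⟨k, hk⟩ := Nat.exists_eq_add_of_le h8
    rw [hk]
    simp only [Nat.add_sub_cancel_left]
    ring
  omega

theorem plus_mgraph {n m r : ℕ} (ends : Fin m → Sym2 (Fin n)) (f : Fin r → Fin n) (hn : Odd n)
    (hl : ∀ e, ¬ (ends e).IsDiag) (hf : ∀ v, #{e | v ∈ ends e} + #{i | f i = v} = r)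
    (hodd : ∀ S : Finset (Fin n), Odd S.card →
      2 * #{e | ∀ v ∈ ends e, v ∈ S} ≤ r * (S.card - 1)) : MGraph r (plus ends f) := by
  classical
  refine ⟨plus_loopless ends f hl, fun v => ?_, fun X hX => ?_⟩
  · rw [Set.ncard_eq_toFinset_card']
    simp only [Set.toFinset_ofPred]
    exact plus_degree ends f hf v
  · rw [Set.ncard_eq_toFinset_card']
    simp only [Set.toFinset_ofPred]
    by_cases hlast : Fin.last n ∈ X
    · have hc : Odd Xᶜ.card := by
        rw [card_compl, Fintype.card_fin]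
        have h1 : X.card ≤ n + 1 := by
          have := card_le_univ X
          rwa [Fintype.card_fin] at this
        obtain ⟨a, ha⟩ := hX
        obtain ⟨b, hb⟩ := hn
        exact ⟨b - a, by omega⟩
      have h2 := plus_cut ends f hl hf hodd Xᶜ hc (by simpa using hlast)
      refine h2.trans (le_of_eq ?_)
      congr 1
      ext e
      rw [mem_filter, mem_filter]
      refine and_congr_right fun _ => ⟨?_, ?_⟩
      · rintro ⟨u, hu, w, hw, h⟩
        rw [mem_compl] at hu hw
        exact ⟨w, not_not.1 hw, u, hu, by rw [h, Sym2.eq_swap]⟩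
      · rintro ⟨u, hu, w, hw, h⟩
        exact ⟨w, mem_compl.2 hw, u, fun h' => (mem_compl.1 h') hu, by rw [h, Sym2.eq_swap]⟩
    · exact plus_cut ends f hl hf hodd X hX hlast

/-- a permutation with two prescribed values -/
theorem perm_two (a b : Fin 5) (hab : a ≠ b) : ∃ σ : Equiv.Perm (Fin 5), σ 0 = a ∧ σ 1 = b := by
  have h1 : Equiv.swap 0 a (1 : Fin 5) ≠ a := by
    intro h
    have h2 : Equiv.swap 0 a (0 : Fin 5) = a := Equiv.swap_apply_left _ _
    have := (Equiv.swap (0 : Fin 5) a).injective (h.trans h2.symm)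
    exact absurd this (by decide)
  refine ⟨(Equiv.swap (0 : Fin 5) a).trans (Equiv.swap (Equiv.swap 0 a (1 : Fin 5)) b), ?_, ?_⟩
  · rw [Equiv.trans_apply, Equiv.swap_apply_left]
    exact Equiv.swap_apply_of_ne_of_ne h1.symm hab
  · rw [Equiv.trans_apply, Equiv.swap_apply_left]

theorem adj_of_plus {n m r : ℕ} (ends : Fin m → Sym2 (Fin n)) (f : Fin r → Fin n) (u v : Fin n)
    (h : (SimpleGraph.fromEdgeSet (Set.range (plus ends f))).Adj u.castSucc v.castSucc) :
    (SimpleGraph.fromEdgeSet (Set.range ends)).Adj u v := by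
  rw [SimpleGraph.fromEdgeSet_adj] at h ⊢
  obtain ⟨⟨e, he⟩, h2⟩ := h
  refine ⟨?_, fun h3 => h2 (by rw [h3])⟩
  induction e using Fin.addCases with
  | left e =>
    rw [plus_left] at he
    refine ⟨e, ?_⟩
    have h4 : (s(u.castSucc, v.castSucc) : Sym2 (Fin (n + 1))) = (s(u, v) : Sym2 (Fin n)).map
      Fin.castSucc := rfl
    rw [h4] at he
    exact Sym2.map.injective (Fin.castSucc_injective n) he
  | right i =>
    rw [plus_right] at he
    exfalso
    have h5 : Fin.last n ∈ (s(u.castSucc, v.castSucc) : Sym2 (Fin (n + 1))) := by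
      rw [← he]
      exact Sym2.mem_mk_right _ _
    rw [Sym2.mem_iff] at h5
    rcases h5 with h5 | h5
    · exact (Fin.castSucc_lt_last u).ne h5.symm
    · exact (Fin.castSucc_lt_last v).ne h5.symm

theorem star_of_pet {n m r : ℕ} (ends : Fin m → Sym2 (Fin n)) (f : Fin r → Fin n)
    (h : PetMinor (SimpleGraph.fromEdgeSet (Set.range (plus ends f)))) :
    StarMinor (SimpleGraph.fromEdgeSet (Set.range ends)) := by
  classical
  obtain ⟨F, h1, h2, h3⟩ := h
  obtain ⟨p, hp⟩ : ∃ p : {s : Finset (Fin 5) // s.card = 2}, ∀ q, q ≠ p → Fin.last n ∉ F q := by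
    by_cases hc : ∃ p, Fin.last n ∈ F p
    · obtain ⟨p, hp⟩ := hc
      exact ⟨p, fun q hq h' => Set.disjoint_left.1 (h1 q p hq) h' hp⟩
    · push Not at hc
      exact ⟨⟨{0, 1}, rfl⟩, fun q _ => hc q⟩
  obtain ⟨a, b, hab, hpab⟩ := Finset.card_eq_two.1 p.2
  obtain ⟨σ, hσ0, hσ1⟩ := perm_two a b hab
  have hτ : ∀ i : {s : Finset (Fin 5) // s.card = 2 ∧ s ≠ {0, 1}},
      (i.1.map σ.toEmbedding).card = 2 := fun i => by rw [card_map]; exact i.2.1
  obtain ⟨τ, hτ'⟩ : ∃ τ : {s : Finset (Fin 5) // s.card = 2 ∧ s ≠ {0, 1}} →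
      {s : Finset (Fin 5) // s.card = 2}, ∀ i, (τ i).1 = i.1.map σ.toEmbedding :=
    ⟨fun i => ⟨_, hτ i⟩, fun i => rfl⟩
  have hne : ∀ i, τ i ≠ p := by
    intro i hi
    apply i.2.2
    have h4 : i.1.map σ.toEmbedding = ({0, 1} : Finset (Fin 5)).map σ.toEmbedding := by
      rw [← hτ' i, hi, hpab]
      ext x
      simp only [mem_insert, mem_singleton, mem_map, Equiv.coe_toEmbedding, exists_eq_or_imp,
        exists_eq_left, hσ0, hσ1]
      tauto
    exact Finset.map_injective _ h4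
  have hinj : ∀ i j, i ≠ j → τ i ≠ τ j := by
    intro i j hij h'
    apply hij
    apply Subtype.ext
    apply Finset.map_injective σ.toEmbedding
    rw [← hτ' i, ← hτ' j, h']
  refine ⟨fun i => Fin.castSucc ⁻¹' F (τ i), fun i j hij => ?_, fun i => ?_, fun i j hij => ?_⟩
  · exact Disjoint.preimage _ (h1 _ _ (hinj i j hij))
  · have hl : Fin.last n ∉ F (τ i) := hp _ (hne i)
    have hne' : ∀ x : F (τ i), x.1 ≠ Fin.last n := fun x h' => hl (h' ▸ x.2)
    refine SimpleGraph.Connected.map (G := (SimpleGraph.fromEdgeSet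
      (Set.range (plus ends f))).induce (F (τ i)))
      (⟨fun x => ⟨x.1.castPred (hne' x), ?_⟩, ?_⟩) ?_ (h2 (τ i))
    · show (x.1.castPred (hne' x)).castSucc ∈ F (τ i)
      rw [Fin.castSucc_castPred]
      exact x.2
    · intro x y hxy
      have h5 : (SimpleGraph.fromEdgeSet (Set.range (plus ends f))).Adj x.1 y.1 := hxy
      show (SimpleGraph.fromEdgeSet (Set.range ends)).Adj (x.1.castPred (hne' x))
        (y.1.castPred (hne' y))
      apply adj_of_plus ends f
      rw [Fin.castSucc_castPred, Fin.castSucc_castPred]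
      exact h5
    · rintro ⟨y, hy⟩
      refine ⟨⟨y.castSucc, hy⟩, ?_⟩
      apply Subtype.ext
      exact Fin.castPred_castSucc
  · have h6 : Disjoint (τ i).1 (τ j).1 := by
      rw [hτ' i, hτ' j, Finset.disjoint_map]
      exact hij
    obtain ⟨x, hx, y, hy, hxy⟩ := h3 _ _ h6
    have hx' : x ≠ Fin.last n := fun h' => hp _ (hne i) (h' ▸ hx)
    have hy' : y ≠ Fin.last n := fun h' => hp _ (hne j) (h' ▸ hy)
    refine ⟨x.castPred hx', ?_, y.castPred hy', ?_, ?_⟩
    · show (x.castPred hx').castSucc ∈ F (τ i)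
      rw [Fin.castSucc_castPred]
      exact hx
    · show (y.castPred hy').castSucc ∈ F (τ j)
      rw [Fin.castSucc_castPred]
      exact hy
    · apply adj_of_plus ends f
      rw [Fin.castSucc_castPred, Fin.castSucc_castPred]
      exact hxy

/-- `r` perfect matchings covering every edge exactly once are the classes of a proper edge colouring -/
theorem cover_colouring {n m r : ℕ} (ends : Fin m → Sym2 (Fin n)) (h : MCover 1 r ends) :
    ∃ c : Fin m → Fin r, ∀ e₁ e₂, e₁ ≠ e₂ → (∃ v, v ∈ ends e₁ ∧ v ∈ ends e₂) → c e₁ ≠ c e₂ := by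
  obtain ⟨M, h1, h2⟩ := h
  have h3 : ∀ e : Fin m, ∃ i : Fin (1 * r), e ∈ M i := by
    intro e
    have h4 := h2 e
    have h5 : {i : Fin (1 * r) | e ∈ M i}.Nonempty := by
      rw [← Set.ncard_pos (Set.toFinite _), h4]
      exact Nat.one_pos
    exact h5
  choose c hc using h3
  refine ⟨fun e => Fin.cast (one_mul r) (c e), ?_⟩
  rintro e₁ e₂ hne ⟨v, hv1, hv2⟩ hcc
  have h6 : c e₁ = c e₂ := Fin.cast_injective _ hcc
  obtain ⟨e, -, he⟩ := h1 (c e₁) v
  exact hne ((he e₁ ⟨hc e₁, hv1⟩).trans (he e₂ ⟨h6 ▸ hc e₂, hv2⟩).symm)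

theorem exists_list {n m r : ℕ} (ends : Fin m → Sym2 (Fin n)) (hn : Odd n)
    (hl : ∀ e, ¬ (ends e).IsDiag) (hd : ∀ v, #{e | v ∈ ends e} ≤ r) (ht : 2 * m = r * (n - 1)) :
    ∃ f : Fin r → Fin n, ∀ v, #{e | v ∈ ends e} + #{i | f i = v} = r := by
  classical
  have h1 := handshake ends hl univ
  have h2 : (univ.filter fun e : Fin m => ∀ v ∈ ends e, v ∈ (univ : Finset (Fin n))) = univ := by
    rw [filter_eq_self]
    intro e _ v _
    exact mem_univ v
  have h3 : (univ.filter fun e : Fin m => ∃ u, u ∈ (univ : Finset (Fin n)) ∧ ∃ w,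
      w ∉ (univ : Finset (Fin n)) ∧ ends e = s(u, w)) = ∅ := by
    rw [filter_eq_empty_iff]
    rintro e _ ⟨u, _, w, hw, _⟩
    exact hw (mem_univ w)
  rw [h2, h3, card_empty, add_zero, card_univ, Fintype.card_fin] at h1
  have h4 : ∑ v : Fin n, (#{e | v ∈ ends e} + (r - #{e | v ∈ ends e})) = n * r := by
    rw [sum_congr rfl fun v _ => Nat.add_sub_of_le (hd v), sum_const, card_univ, Fintype.card_fin,
      smul_eq_mul]
  rw [sum_add_distrib, h1] at h4
  have h6 : n * r = r * (n - 1) + r := by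
    obtain ⟨k, hk⟩ := Nat.exists_eq_add_of_le hn.pos
    rw [hk, Nat.succ_eq_add_one]
    simp only [zero_add, Nat.add_sub_cancel_left]
    ring
  have h5 : ∑ v : Fin n, (r - #{e | v ∈ ends e}) = r := by omega
  have h7 : Fintype.card (Σ v : Fin n, Fin (r - #{e | v ∈ ends e})) = r := by
    rw [Fintype.card_sigma]
    simp only [Fintype.card_fin]
    exact h5
  let E := (Fintype.equivFinOfCardEq h7).symm
  refine ⟨fun i => (E i).1, fun v => ?_⟩
  have h8 : #{i | (E i).1 = v} =
      #{x : (Σ v : Fin n, Fin (r - #{e | v ∈ ends e})) | x.1 = v} :=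
    card_bij (fun i _ => E i) (fun i hi => mem_filter.2 ⟨mem_univ _, (mem_filter.1 hi).2⟩)
      (fun i _ j _ h => E.injective h)
      (fun x hx => ⟨E.symm x, mem_filter.2 ⟨mem_univ _, by
        rw [Equiv.apply_symm_apply]; exact (mem_filter.1 hx).2⟩, E.apply_symm_apply x⟩)
  have h9 : #{x : (Σ v : Fin n, Fin (r - #{e | v ∈ ends e})) | x.1 = v} =
      r - #{e | v ∈ ends e} := by
    rw [card_filter, Fintype.sum_sigma]
    have h10 : ∀ u : Fin n, (∑ j : Fin (r - #{e | u ∈ ends e}),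
        if (⟨u, j⟩ : Σ v : Fin n, Fin (r - #{e | v ∈ ends e})).1 = v then 1 else 0) =
        if u = v then r - #{e | u ∈ ends e} else 0 := by
      intro u
      change (∑ _j : Fin (r - #{e | u ∈ ends e}), if u = v then 1 else 0) = _
      rw [sum_const, card_univ, Fintype.card_fin, smul_eq_mul, mul_ite, mul_one, mul_zero]
    rw [sum_congr rfl fun u _ => h10 u, sum_ite_eq', if_pos (mem_univ v)]
  rw [h8, h9]
  exact Nat.add_sub_of_le (hd v)

/-- tight multigraphs without `P*` minor: the graph with the additional vertex -/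
theorem exact_colouring {n m r : ℕ} (ends : Fin m → Sym2 (Fin n)) (hn : Odd n)
    (hl : ∀ e, ¬ (ends e).IsDiag)
    (hodd : ∀ S : Finset (Fin n), Odd S.card → 2 * #{e | ∀ v ∈ ends e, v ∈ S} ≤ r * (S.card - 1))
    (f : Fin r → Fin n) (hf : ∀ v, #{e | v ∈ ends e} + #{i | f i = v} = r)
    (hP : ¬ StarMinor (SimpleGraph.fromEdgeSet (Set.range ends)))
    (hL : ∀ S T, Linked (plus ends f) S T → S.card + T.card ≤ 13) :
    ∃ c : Fin (m + r) → Fin r, ∀ e₁ e₂, e₁ ≠ e₂ →
      (∃ v, v ∈ plus ends f e₁ ∧ v ∈ plus ends f e₂) → c e₁ ≠ c e₂ :=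
  cover_colouring (plus ends f) (mcover (plus ends f) (plus_mgraph ends f hn hl hf hodd)
    (Or.inl ⟨fun h => hP (star_of_pet ends f h), hL⟩))

end Run7.h818.HB
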