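import Pool.Agent.Run7.h818.HB.Exact

/-!
# Perfect matchings without odd cuts in 5-regular graphs
-/

set_option autoImplicit false

namespace Run7.h818.HB

open Finset H76FC H76TX H76TY

theorem handshakeF {N M : ℕ} (g : Fin M → Sym2 (Fin N)) (hg : ∀ e, ¬ (g e).IsDiag)
    (F : Finset (Fin M)) (S : Finset (Fin N)) :
    ∑ v ∈ S, (F.filter fun e => v ∈ g e).card = 2 * (F.filter fun e => ∀ v ∈ g e, v ∈ S).card +
      (F.filter fun e => ∃ u, u ∈ S ∧ ∃ w, w ∉ S ∧ g e = s(u, w)).card := by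
  classical
  have h1 : ∑ v ∈ S, (F.filter fun e => v ∈ g e).card =
      ∑ e ∈ F, ∑ v ∈ S, if v ∈ g e then 1 else 0 := by
    rw [sum_comm]
    exact sum_congr rfl fun v _ => by rw [card_filter]
  rw [h1, card_filter, card_filter, mul_sum, ← sum_add_distrib]
  refine sum_congr rfl fun e _ => ?_
  have hd := hg e
  induction hge : g e with
  | _ a b =>
    rw [hge, Sym2.mk_isDiag_iff] at hd
    simp only [Sym2.mem_iff, forall_eq_or_imp, forall_eq]
    have h2 : (∑ v ∈ S, if v = a ∨ v = b then 1 else 0) =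
        (if a ∈ S then 1 else 0) + (if b ∈ S then 1 else 0) := by
      have h3 : ∀ v : Fin N, (if v = a ∨ v = b then 1 else 0) =
          (if v = a then 1 else 0) + (if v = b then 1 else 0) := by
        intro v
        by_cases h : v = a
        · have h4 : v ≠ b := fun h5 => hd (h.symm.trans h5)
          rw [if_pos (Or.inl h), if_pos h, if_neg h4]
        · by_cases h4 : v = b
          · rw [if_pos (Or.inr h4), if_neg h, if_pos h4]
          · rw [if_neg (by tauto), if_neg h, if_neg h4]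
      rw [sum_congr rfl fun v _ => h3 v, sum_add_distrib, sum_ite_eq', sum_ite_eq']
    rw [h2]
    have h5 : (∃ u, u ∈ S ∧ ∃ w, w ∉ S ∧ (s(a, b) : Sym2 (Fin N)) = s(u, w)) ↔
        (a ∈ S ∧ b ∉ S) ∨ (b ∈ S ∧ a ∉ S) := by
      constructor
      · rintro ⟨u, hu, w, hw, h⟩
        rw [Sym2.eq_iff] at h
        rcases h with ⟨rfl, rfl⟩ | ⟨rfl, rfl⟩
        · exact Or.inl ⟨hu, hw⟩
        · exact Or.inr ⟨hu, hw⟩
      · rintro (⟨h, h'⟩ | ⟨h, h'⟩)
        · exact ⟨a, h, b, h', rfl⟩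
        · exact ⟨b, h, a, h', Sym2.eq_swap⟩
    simp only [h5]
    by_cases ha : a ∈ S <;> by_cases hb : b ∈ S <;> simp [ha, hb]

/-- a `4`-edge-connected `5`-regular multigraph is a `5`-graph -/
theorem mgraph_five {n m : ℕ} (ends : Fin m → Sym2 (Fin n)) (hl : ∀ e, ¬ (ends e).IsDiag)
    (hr : ∀ v, #{e | v ∈ ends e} = 5)
    (hc : ∀ X : Finset (Fin n), X.Nonempty → X ≠ univ →
      4 ≤ #{e | ∃ u, u ∈ X ∧ ∃ w, w ∉ X ∧ ends e = s(u, w)}) : MGraph 5 ends := by
  classical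
  refine ⟨hl, fun v => ?_, fun X hX => ?_⟩
  · rw [Set.ncard_eq_toFinset_card']
    simp only [Set.toFinset_ofPred]
    exact hr v
  · rw [Set.ncard_eq_toFinset_card']
    simp only [Set.toFinset_ofPred]
    have h1 := handshake ends hl X
    rw [sum_congr rfl fun v _ => hr v, sum_const, smul_eq_mul] at h1
    have h2 : X ≠ univ := by
      rintro rfl
      have h3 : (univ.filter fun e : Fin m => ∃ u, u ∈ (univ : Finset (Fin n)) ∧ ∃ w,
          w ∉ (univ : Finset (Fin n)) ∧ ends e = s(u, w)) = ∅ := by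
        rw [filter_eq_empty_iff]
        rintro e _ ⟨u, _, w, hw, _⟩
        exact hw (mem_univ w)
      rw [h3, card_empty] at h1
      obtain ⟨k, hk⟩ := hX
      omega
    have h4 := hc X (card_pos.1 hX.pos) h2
    obtain ⟨k, hk⟩ := hX
    omega

/-- a perfect matching disjoint from another perfect matching: it meets every odd cut outside the other -/
theorem no_odd_cut {n m r : ℕ} (hr : 2 ≤ r) (ends : Fin m → Sym2 (Fin n))
    (hl : ∀ e, ¬ (ends e).IsDiag) (h : MCover 1 r ends) :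
    ∃ M : Finset (Fin m), (∀ v, ∃! e, e ∈ M ∧ v ∈ ends e) ∧
      ∀ X : Finset (Fin n), Odd X.card →
        ∃ e, (∃ u, u ∈ X ∧ ∃ w, w ∉ X ∧ ends e = s(u, w)) ∧ e ∉ M := by
  classical
  obtain ⟨M, h1, h2⟩ := h
  have i0 : Fin (1 * r) := ⟨0, by omega⟩
  obtain ⟨i, j, hij⟩ : ∃ i j : Fin (1 * r), i ≠ j :=
    ⟨⟨0, by omega⟩, ⟨1, by omega⟩, fun h' => absurd (congrArg Fin.val h') (by simp)⟩
  refine ⟨univ.filter fun e => e ∈ M i, fun v => ?_, fun X hX => ?_⟩
  · obtain ⟨e, he, hu⟩ := h1 i v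
    refine ⟨e, ⟨mem_filter.2 ⟨mem_univ _, he.1⟩, he.2⟩, fun e' he' => hu e' ⟨?_, he'.2⟩⟩
    exact (mem_filter.1 he'.1).2
  · have h3 := handshakeF ends hl (univ.filter fun e => e ∈ M j) X
    have h4 : ∀ v ∈ X, ((univ.filter fun e => e ∈ M j).filter fun e => v ∈ ends e).card = 1 := by
      intro v _
      obtain ⟨e, he, hu⟩ := h1 j v
      rw [card_eq_one]
      refine ⟨e, ?_⟩
      ext e'
      rw [mem_filter, mem_filter, mem_singleton]
      constructor
      · rintro ⟨⟨_, h5⟩, h6⟩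
        exact hu e' ⟨h5, h6⟩
      · rintro rfl
        exact ⟨⟨mem_univ _, he.1⟩, he.2⟩
    rw [sum_congr rfl h4, sum_const, smul_eq_mul, mul_one] at h3
    obtain ⟨k, hk⟩ := hX
    obtain ⟨e, he⟩ : ((univ.filter fun e => e ∈ M j).filter fun e => ∃ u, u ∈ X ∧ ∃ w,
        w ∉ X ∧ ends e = s(u, w)).Nonempty := by
      rw [← card_pos]
      omega
    rw [mem_filter, mem_filter] at he
    refine ⟨e, he.2, fun h' => ?_⟩
    have h7 := (mem_filter.1 h').2
    have h8 := h2 e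
    rw [Set.ncard_eq_one] at h8
    obtain ⟨l, hl'⟩ := h8
    have h9 : i ∈ ({l} : Set (Fin (1 * r))) := hl' ▸ h7
    have h10 : j ∈ ({l} : Set (Fin (1 * r))) := hl' ▸ he.1.2
    exact hij (h9.trans h10.symm)

end Run7.h818.HB
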