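import Pool.Agent.Run7.h818.HB.Bond

/-!
# Bonds with long odd cycles on both sides: lifting to a graph that has the brick as a minor
-/

set_option autoImplicit false
set_option linter.unusedSectionVars false

namespace Run7.h818.HB

open Finset H76FC H76TX H76TY Pool.Agent.W315.LB Pool.Agent.TH583.HB SimpleGraph
open Pool.Agent.R145.Cir (Ci Pa Jo walk_ci lift_path)

section
variable {V W : Type} {G : SimpleGraph V} {H : SimpleGraph W}

theorem lift_in {f : W → Finset V} (hdis : ∀ a b, a ≠ b → Disjoint (f a) (f b))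
    (hcon : ∀ a, (G.induce (f a : Set V)).Connected)
    (hadj : ∀ a b, H.Adj a b → ∃ x ∈ f a, ∃ y ∈ f b, G.Adj x y) {l : List W} (hl : Ci H l) :
    ∃ l', Ci G l' ∧ l.length ≤ l'.length ∧ ∀ v ∈ l', ∃ b ∈ l, v ∈ f b := by
  obtain ⟨h1, h2, h3⟩ := hl
  rcases l with _ | ⟨a, l⟩
  · simp at h2
  · obtain ⟨c, hc⟩ : ∃ c, (a :: l).getLast? = some c := by
      rw [List.getLast?_cons]; exact ⟨_, rfl⟩
    have hca : H.Adj c a := h3 c (by rw [hc]; rfl) a (by simp)
    obtain ⟨y, hy, x, hx, hyx⟩ := hadj c a hca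
    obtain ⟨q, q1, q2, q3, q4, q5⟩ := lift_path hdis hcon hadj l a c h1 hc x hx y hy
    refine ⟨q, ⟨q1, ?_, ?_⟩, by simpa using q4, q5⟩
    · simp only [List.length_cons] at h2; omega
    · intro u hu v hv
      rw [q3] at hu
      rw [q2] at hv
      simp only [Option.mem_def, Option.some.injEq] at hu hv
      rw [← hu, ← hv]; exact hyx

/-- one side -/
structure SideG (G : SimpleGraph V) (S : Finset V) : Prop where
  odd : Odd S.card
  conn : (G.induce (S : Set V)).Connected
  circ : ∃ l, Ci G l ∧ 5 ≤ l.length ∧ ∀ x ∈ l, x ∈ S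

theorem sideG {f : W → Finset V} (f1 : ∀ a b, a ≠ b → Disjoint (f a) (f b))
    (f2 : ∀ a, Odd (f a).card) (f3 : ∀ a, (G.induce (f a : Set V)).Connected)
    (f4 : ∀ a b, H.Adj a b → ∃ x ∈ f a, ∃ y ∈ f b, G.Adj x y) [DecidableEq V] (A : Finset W)
    (hA : Odd A.card) (hc : (H.induce (A : Set W)).Connected) {v : W} (c : H.Walk v v)
    (hcyc : c.IsCycle) (h5 : 5 ≤ c.length) (hs : ∀ x ∈ c.support, x ∈ A) :
    SideG G (A.biUnion f) ∧ A.card ≤ (A.biUnion f).card := by
  have hcard : (A.biUnion f).card = ∑ a ∈ A, (f a).card :=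
    Finset.card_biUnion fun x _ y _ hxy => f1 x y hxy
  refine ⟨⟨?_, ?_, ?_⟩, ?_⟩
  · rw [hcard, Finset.odd_sum_iff_odd_card_odd, Finset.filter_true_of_mem (fun x _ => f2 x)]
    exact hA
  · have h5 := y12_conn H G (fun x => (f x : Set V)) f3
      (fun x y hxy => by
        obtain ⟨a, ha, b, hb, hab⟩ := f4 x y hxy
        exact ⟨a, ha, b, hb, hab⟩) (A : Set W) hc
    have h6 : {b | ∃ x ∈ (A : Set W), b ∈ (f x : Set V)} = ((A.biUnion f : Finset V) : Set V) := by
      ext b
      simp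
    rw [h6] at h5
    exact h5
  · obtain ⟨z1, z2, z3⟩ := walk_ci c hcyc
    obtain ⟨l', hl', hle, hmem⟩ := lift_in f1 f3 f4 z1
    refine ⟨l', hl', by omega, fun x hx => ?_⟩
    obtain ⟨b, hb, hxb⟩ := hmem x hx
    exact Finset.mem_biUnion.2 ⟨b, hs b (z3 b hb), hxb⟩
  · rw [hcard]
    calc A.card = ∑ a ∈ A, 1 := by simp
      _ ≤ ∑ a ∈ A, (f a).card := Finset.sum_le_sum fun a _ => (f2 a).pos

/-- the configuration -/
structure Conf (G : SimpleGraph V) (S T : Finset V) : Prop where
  left : SideG G S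
  right : SideG G T
  disj : Disjoint S T
  five : ∃ a b : Fin 5 → V, Function.Injective a ∧ Function.Injective b ∧
    ∀ i, a i ∈ S ∧ b i ∈ T ∧ G.Adj (a i) (b i)

theorem conf_of [Fintype W] (ho : OddMinor H G) (A : Finset W) (hA : Bond H A) (N : W → W)
    (hN : PM H N) (h5 : 5 ≤ cross N A) :
    ∃ S T : Finset V, Conf G S T ∧ Fintype.card W ≤ S.card + T.card := by
  classical
  obtain ⟨f, f1, f2, f3, f4⟩ := ho
  have hcc := Finset.card_add_card_compl A
  have hodd' : Odd Aᶜ.card := by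
    have h1 : Aᶜ.card = Fintype.card W - A.card := by omega
    rw [h1]
    exact hA.odd'
  obtain ⟨v, c, c1, c2, c3, c4⟩ := hA.cyc
  obtain ⟨v', c', d1, d2, d3, d4⟩ := hA.cyc'
  have s1 := sideG f1 f2 f3 f4 A hA.odd hA.conn c c1 c3 c4
  have s2 := sideG f1 f2 f3 f4 Aᶜ hodd' (by rw [Finset.coe_compl]; exact hA.conn') c' d1 d3
    (fun x hx => Finset.mem_compl.2 (d4 x hx))
  refine ⟨A.biUnion f, Aᶜ.biUnion f, ⟨s1.1, s2.1, ?_, ?_⟩, ?_⟩
  · rw [Finset.disjoint_left]
    intro b hb hb'
    obtain ⟨x, hx, hbx⟩ := Finset.mem_biUnion.1 hb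
    obtain ⟨y, hy, hby⟩ := Finset.mem_biUnion.1 hb'
    have hxy : x ≠ y := by
      rintro rfl
      exact Finset.mem_compl.1 hy hx
    exact Finset.disjoint_left.1 (f1 x y hxy) hbx hby
  · unfold cross at h5
    obtain ⟨C, hC, hC5⟩ := Finset.exists_subset_card_eq h5
    set e := C.equivFinOfCardEq hC5 with he
    set a' : Fin 5 → W := fun i => (e.symm i : W) with ha'
    have hinj : Function.Injective a' := fun i j hij => e.symm.injective (Subtype.ext hij)
    have hmem : ∀ i, a' i ∈ A ∧ N (a' i) ∉ A := by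
      intro i
      have h1 := hC (e.symm i).2
      exact Finset.mem_filter.1 h1
    have hex : ∀ i, ∃ x ∈ f (a' i), ∃ y ∈ f (N (a' i)), G.Adj x y := fun i =>
      f4 _ _ (hN.2 (a' i))
    choose x hx y hy hxy using hex
    refine ⟨x, y, ?_, ?_, fun i => ⟨Finset.mem_biUnion.2 ⟨_, (hmem i).1, hx i⟩,
      Finset.mem_biUnion.2 ⟨_, Finset.mem_compl.2 (hmem i).2, hy i⟩, hxy i⟩⟩
    · intro i j hij
      by_contra hne
      have h1 : a' i ≠ a' j := fun h => hne (hinj h)
      exact Finset.disjoint_left.1 (f1 _ _ h1) (hx i) (hij ▸ hx j)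
    · intro i j hij
      by_contra hne
      have h1 : N (a' i) ≠ N (a' j) := fun h => by
        have h2 := congrArg N h
        rw [hN.1, hN.1] at h2
        exact hne (hinj h2)
      exact Finset.disjoint_left.1 (f1 _ _ h1) (hy i) (hij ▸ hy j)
  · have h1 := s1.2
    have h2 := s2.2
    omega

/-- no configuration: no bonds at all are crossed by five edges of a perfect matching -/
theorem few_of_noConf [Fintype W] (ho : OddMinor H G)
    (h : ∀ S T : Finset V, Conf G S T → Fintype.card W ≤ S.card + T.card → False) :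
    FewBonds W H := by
  classical
  refine ⟨fun _ => 0, ?_, ?_⟩
  · intro M hM A hA
    by_contra hcon
    have hpm : H76FC.IsPM M := ⟨hM.1, fun v hv => (hM.2 v).ne hv.symm⟩
    have hpar := out_parity hpm A
    rw [← cross_out] at hpar
    obtain ⟨a, ha⟩ := hpar
    obtain ⟨b, hb⟩ := hA.odd
    have h5 : 5 ≤ cross M A := by
      have h3 : ¬ cross M A ≤ 3 := fun h3 => hcon (by simpa using h3)
      omega
    obtain ⟨S, T, h1, h2⟩ := conf_of ho A hA M hM h5
    exact h S T h1 h2
  · simp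

end

/-- the classes of bricks -/
def KB (W : Type) [Fintype W] (H : SimpleGraph W) : Prop :=
  Pool.Agent.TH100.LV.Known' W H ∨ Few W H ∨ FewBonds W H

theorem decomp_KB (V E : Type) [Fintype V] [Fintype E] [DecidableEq E] (ends : E → Sym2 V)
    (hG : ∀ (W : Type) [Fintype W] (H : SimpleGraph W), Brick H →
      OddMinor H (SimpleGraph.fromEdgeSet (Set.range ends)) → KB W H) : Decomp ends := by
  refine decomp_of (fun V G => Good KB G) ?_ ?_ V E ends hG
  · intro V G H h hG
    exact good_sub id Function.injective_id h hG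
  · intro V _ _ r p hp hg
    refine main Pool.Agent.W209.LB.conn3 Pool.Agent.W427.LB.bicrit transport H76TW.bip H76TW.span
      tight2 connSide KB (fun V _ _ r p hc hp => eight' V r p (by omega) hp) ?_ _ V rfl r p hp hg
    intro V _ _ r p hr hp hnt hb hk
    rcases hk with hk | hk | hk
    · exact Or.inl (Pool.Agent.TH100.LV.cover_known' hp hk)
    · exact Or.inr (step hr hp hnt hk)
    · exact Or.inr (stepB hr hp hnt hb hk)

end Run7.h818.HB
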