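import Pool.Agent.Run7.h818.HB.Lift
import Pool.Agent.W315.MD.Final

/-!
# Linked pairs and 1-factorizations of r-graphs
-/

set_option autoImplicit false

namespace Run7.h818.HB

open H76FC H76TX H76TY H76TW Pool.Agent.W315.LB Pool.Agent.TH583.HB Pool.Agent.TH100.LV

/-- `v 0, v 1, ..., v (n - 1)` are the vertices of a circuit with `n` edges (for `n ≥ 3`): they are
distinct, and `v i` and `v (i + 1)` are joined by an edge, also `v (n - 1)` and `v 0` -/
def IsCircuit {V E : Type} (ends : E → Sym2 V) (n : ℕ) (v : ℕ → V) : Prop :=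
  (∀ i < n, ∀ j < n, v i = v j → i = j) ∧ ∀ i < n, ∃ e, ends e = s(v i, v ((i + 1) % n))

/-- `S` is an odd set of vertices, it induces a connected subgraph, and this subgraph contains a
circuit with at least five edges. -/
structure Side {V E : Type} (ends : E → Sym2 V) (S : Finset V) : Prop where
  odd : Odd S.card
  conn : ((SimpleGraph.fromEdgeSet (Set.range ends)).induce (S : Set V)).Connected
  circuit : ∃ n v, 5 ≤ n ∧ IsCircuit ends n v ∧ ∀ i < n, v i ∈ S

/-- `S` and `T` are disjoint odd sets of vertices which induce connected subgraphs with circuits of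
length at least five, and they are joined by five pairwise disjoint edges. -/
structure Linked {V E : Type} (ends : E → Sym2 V) (S T : Finset V) : Prop where
  left : Side ends S
  right : Side ends T
  disj : Disjoint S T
  five : ∃ a b : Fin 5 → V, Function.Injective a ∧ Function.Injective b ∧
    ∀ i, a i ∈ S ∧ b i ∈ T ∧ ∃ e, ends e = s(a i, b i)

theorem side_of {V E : Type} (ends : E → Sym2 V) (S : Finset V)
    (h : SideG (SimpleGraph.fromEdgeSet (Set.range ends)) S) : Side ends S := by
  refine ⟨h.odd, h.conn, ?_⟩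
  obtain ⟨l, hl, hlen, hmem⟩ := h.circ
  have hpos : 0 < l.length := by omega
  refine ⟨l.length, fun i => l.getD i (l[0]'hpos), hlen, ⟨?_, ?_⟩, ?_⟩
  · intro i hi j hj hij
    simp only [List.getD_eq_getElem?_getD, List.getElem?_eq_getElem hi,
      List.getElem?_eq_getElem hj, Option.getD_some] at hij
    exact (List.Nodup.getElem_inj_iff hl.1.1).mp hij
  · intro i hi
    have hj : (i + 1) % l.length < l.length := Nat.mod_lt _ hpos
    simp only [List.getD_eq_getElem?_getD, List.getElem?_eq_getElem hi,
      List.getElem?_eq_getElem hj, Option.getD_some]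
    have h1 := Pool.Agent.R145.Cir.adj_ix hl (List.getElem?_eq_getElem hi)
      (List.getElem?_eq_getElem hj) (by
      unfold Pool.Agent.R145.Cir.Ai
      rcases Nat.lt_or_ge (i + 1) l.length with h | h
      · left; exact Nat.mod_eq_of_lt h
      · right; right; left
        have : i + 1 = l.length := by omega
        exact ⟨this, by rw [this, Nat.mod_self]⟩)
    rw [SimpleGraph.fromEdgeSet_adj] at h1
    obtain ⟨e, he⟩ := h1.1
    exact ⟨e, he⟩
  · intro i hi
    simp only [List.getD_eq_getElem?_getD, List.getElem?_eq_getElem hi, Option.getD_some]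
    exact hmem _ (List.getElem_mem hi)

theorem linked_of {V E : Type} (ends : E → Sym2 V) (S T : Finset V)
    (h : Conf (SimpleGraph.fromEdgeSet (Set.range ends)) S T) : Linked ends S T := by
  refine ⟨side_of ends S h.left, side_of ends T h.right, h.disj, ?_⟩
  obtain ⟨a, b, ha, hb, hab⟩ := h.five
  refine ⟨a, b, ha, hb, fun i => ?_⟩
  obtain ⟨h1, h2, h3⟩ := hab i
  rw [SimpleGraph.fromEdgeSet_adj] at h3
  obtain ⟨e, he⟩ := h3.1
  exact ⟨h1, h2, e, he⟩

/-- `r`-graphs with bricks in the class `KB` -/
theorem mcover_KB {r n m : ℕ} (ends : Fin m → Sym2 (Fin n)) (hG : MGraph r ends)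
    (hB : ∀ (W : Type) [Fintype W] (H : SimpleGraph W), Brick H →
      OddMinor H (SimpleGraph.fromEdgeSet (Set.range ends)) → KB W H) : MCover 1 r ends := by
  obtain ⟨hp, _⟩ := toR r n m ends hG
  rw [coverIff 1 r n m ends hG]
  refine main Pool.Agent.W209.LB.conn3 Pool.Agent.W427.LB.bicrit transport H76TW.bip H76TW.span
    tight2 connSide KB
    (fun V _ _ r p hc hp => eight' V r p (by omega) hp) ?_ _ _ rfl r _ hp ?_
  · intro V _ _ r p hr hp hnt hb hk
    rcases hk with hk | hk | hk
    · exact Or.inl (cover_known' hp hk)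
    · exact Or.inr (step hr hp hnt hk)
    · exact Or.inr (stepB hr hp hnt hb hk)
  · intro W _ H hH ho
    refine hB W H hH (oddMinor_sub H _ _ id Function.injective_id ?_ ho)
    intro a b hab
    have hmul : ∀ a b : Fin n, mult ends a b ≠ 0 → ∃ e, ends e = s(a, b) := by
      intro a b huv
      unfold mult at huv
      obtain ⟨e, he⟩ := Finset.card_pos.1 (Nat.pos_of_ne_zero huv)
      exact ⟨e, (Finset.mem_filter.1 he).2⟩
    unfold gr at hab
    rw [SimpleGraph.fromRel_adj] at hab
    rw [SimpleGraph.fromEdgeSet_adj]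
    refine ⟨?_, hab.1⟩
    rcases hab.2 with h1 | h1
    · obtain ⟨e, he⟩ := hmul a b (by omega)
      exact ⟨e, he⟩
    · obtain ⟨e, he⟩ := hmul b a (by omega)
      exact ⟨e, by simp only [id]; rw [he, Sym2.eq_swap]⟩

theorem mcover {r n m : ℕ} (ends : Fin m → Sym2 (Fin n)) (hG : MGraph r ends)
    (hB : (¬ PetMinor (SimpleGraph.fromEdgeSet (Set.range ends)) ∧
        ∀ S T, Linked ends S T → S.card + T.card ≤ 13) ∨
      ∀ (W : Type) [Fintype W] (H : SimpleGraph W), Brick H →
        OddMinor H (SimpleGraph.fromEdgeSet (Set.range ends)) →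
        (Fintype.card W ≤ 13 ∧ ¬ PetMinor H) ∨ FewBonds W H ∨
          ∀ S T, Linked ends S T → S.card + T.card < Fintype.card W) : MCover 1 r ends := by
  rcases hB with ⟨hP, hB⟩ | hB
  · refine mcover_KB ends hG (fun W _ H _ ho => ?_)
    by_cases hc : Fintype.card W ≤ 13
    · exact Or.inl (Or.inl (Or.inl ⟨hc, fun h' => hP (pet_oddMinor H _ ho h')⟩))
    · refine Or.inr (Or.inr (few_of_noConf ho fun S T h h1 => ?_))
      have := hB S T (linked_of ends S T h)
      omega
  · refine mcover_KB ends hG (fun W _ H hb ho => ?_)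
    rcases hB W H hb ho with h | h | h
    · exact Or.inl (Or.inl (Or.inl h))
    · exact Or.inr (Or.inr h)
    · refine Or.inr (Or.inr (few_of_noConf ho fun S T h1 h2 => ?_))
      have := h S T (linked_of ends S T h1)
      omega

end Run7.h818.HB
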