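import Pool.Agent.Run7.h818.HB.Five

/-!
# Disjoint perfect matchings and `S₄`-pairs
-/

set_option autoImplicit false

namespace Run7.h818.HB

open Finset H76FC H76TX H76TY

/-- `M` is a perfect matching -/
def PerfectMatching {n m : ℕ} (ends : Fin m → Sym2 (Fin n)) (M : Finset (Fin m)) : Prop :=
  ∀ v, ∃! e, e ∈ M ∧ v ∈ ends e

theorem disjoint_family {n m r : ℕ} (ends : Fin m → Sym2 (Fin n)) (h : MCover 1 r ends) :
    ∃ M : Fin r → Finset (Fin m), (∀ i, PerfectMatching ends (M i)) ∧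
      (∀ i j, i ≠ j → Disjoint (M i) (M j)) ∧ ∀ e, ∃ i, e ∈ M i := by
  classical
  obtain ⟨M, h1, h2⟩ := h
  let N : Fin r → Finset (Fin m) := fun i => univ.filter fun e => e ∈ M (Fin.cast (one_mul r).symm i)
  have hN : ∀ i e, e ∈ N i ↔ e ∈ M (Fin.cast (one_mul r).symm i) := fun i e => by
    simp only [N, mem_filter, mem_univ, true_and]
  refine ⟨N, fun i v => ?_, fun i j hij => ?_, fun e => ?_⟩
  · obtain ⟨e, he, hu⟩ := h1 (Fin.cast (one_mul r).symm i) v
    exact ⟨e, ⟨(hN i e).2 he.1, he.2⟩, fun e' he' => hu e' ⟨(hN i e').1 he'.1, he'.2⟩⟩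
  · rw [Finset.disjoint_left]
    intro e h3 h4
    rw [hN] at h3 h4
    have h8 := h2 e
    rw [Set.ncard_eq_one] at h8
    obtain ⟨l, hl⟩ := h8
    have h9 : Fin.cast (one_mul r).symm i ∈ ({l} : Set (Fin (1 * r))) := hl ▸ h3
    have h10 : Fin.cast (one_mul r).symm j ∈ ({l} : Set (Fin (1 * r))) := hl ▸ h4
    exact hij (Fin.cast_injective _ (h9.trans h10.symm))
  · have h8 := h2 e
    rw [Set.ncard_eq_one] at h8
    obtain ⟨l, hl⟩ := h8
    have h9 : l ∈ {i : Fin (1 * r) | e ∈ M i} := by rw [hl]; exact rfl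
    refine ⟨Fin.cast (one_mul r) l, (hN _ e).2 ?_⟩
    exact h9

/-- the condition on linked pairs -/
theorem family_of_linked {n m r : ℕ} (ends : Fin m → Sym2 (Fin n)) (hG : MGraph r ends)
    (h : (∀ S T, ¬ Linked ends S T) ∨
      (¬ PetMinor (SimpleGraph.fromEdgeSet (Set.range ends)) ∧
        ∀ S T, Linked ends S T → S.card + T.card ≤ 13)) :
    ∃ M : Fin r → Finset (Fin m), (∀ i, PerfectMatching ends (M i)) ∧
      (∀ i j, i ≠ j → Disjoint (M i) (M j)) ∧ ∀ e, ∃ i, e ∈ M i := by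
  refine disjoint_family ends (mcover ends hG ?_)
  rcases h with h | h
  · exact Or.inr fun W _ H _ _ => Or.inr (Or.inr fun S T hST => absurd hST (h S T))
  · exact Or.inl h

/-- a cubic graph without bridges is a `3`-graph -/
theorem mgraph_three {n m : ℕ} (ends : Fin m → Sym2 (Fin n)) (hl : ∀ e, ¬ (ends e).IsDiag)
    (hr : ∀ v, #{e | v ∈ ends e} = 3)
    (hc : ∀ X : Finset (Fin n), #{e | ∃ u, u ∈ X ∧ ∃ w, w ∉ X ∧ ends e = s(u, w)} ≠ 1) :
    MGraph 3 ends := by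
  classical
  refine ⟨hl, fun v => ?_, fun X hX => ?_⟩
  · rw [Set.ncard_eq_toFinset_card']
    simp only [Set.toFinset_ofPred]
    exact hr v
  · rw [Set.ncard_eq_toFinset_card']
    simp only [Set.toFinset_ofPred]
    have h1 := handshake ends hl X
    rw [sum_congr rfl fun v _ => hr v, sum_const, smul_eq_mul] at h1
    have h4 := hc X
    obtain ⟨k, hk⟩ := hX
    omega

/-- a perfect matching is bipartite -/
theorem two_sides {n m : ℕ} (ends : Fin m → Sym2 (Fin n)) (hl : ∀ e, ¬ (ends e).IsDiag)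
    (M : Finset (Fin m)) (hM : PerfectMatching ends M) :
    ∃ c : Fin n → Bool, ∀ e ∈ M, ∀ u v, ends e = s(u, v) → c u ≠ c v := by
  classical
  refine ⟨fun v => decide (∃ e ∈ M, ∃ u, ends e = s(u, v) ∧ u < v), fun e he u v huv h => ?_⟩
  have hne : u ≠ v := by
    rintro rfl
    exact hl e (by rw [huv, Sym2.mk_isDiag_iff])
  have key : ∀ a b : Fin n, ends e = s(a, b) → a < b →
      (∃ e ∈ M, ∃ u, ends e = s(u, b) ∧ u < b) ∧ ¬ ∃ e ∈ M, ∃ u, ends e = s(u, a) ∧ u < a := by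
    intro a b hab hlt
    refine ⟨⟨e, he, a, hab, hlt⟩, ?_⟩
    rintro ⟨e', he', w, hw, hwa⟩
    obtain ⟨e₀, -, hu⟩ := hM a
    have h1 : e' = e := (hu e' ⟨he', by rw [hw]; exact Sym2.mem_mk_right _ _⟩).trans
      (hu e ⟨he, by rw [hab]; exact Sym2.mem_mk_left _ _⟩).symm
    rw [h1, hab, Sym2.eq_iff] at hw
    rcases hw with ⟨h2, h3⟩ | ⟨h2, h3⟩
    · exact absurd (h3 ▸ hlt) (lt_irrefl _)
    · exact absurd (hwa.trans hlt) (by rw [h3]; exact lt_irrefl _)
  rcases lt_or_gt_of_ne hne with h1 | h1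
  · obtain ⟨k1, k2⟩ := key u v huv h1
    simp only [k1, k2] at h
    exact absurd h (by decide)
  · obtain ⟨k1, k2⟩ := key v u (by rw [huv, Sym2.eq_swap]) h1
    simp only [k1, k2] at h
    exact absurd h (by decide)

end Run7.h818.HB
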